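import Pool.Agent.W578.SM.A

/-!
Project SM, part KEY, second file: the forms.
-/

namespace Pool.Agent.W578.SM

open Pool.Agent.W907.SG Pool.Agent.W907.SM

set_option autoImplicit false

lemma mem_DblF {n k : ℕ} {c : Fin n} : c ∈ DblF n k ↔ Even (c : ℕ) ∧ (c : ℕ) < 2 * k := by
  simp [DblF]

lemma mem_RgF {n a b : ℕ} {c : Fin n} : c ∈ RgF n a b ↔ a ≤ (c : ℕ) ∧ (c : ℕ) < b := by
  simp [RgF]

variable {n : ℕ} {V K : Type} [Fintype V] [DecidableEq V] [Field K] {r : V → V → Prop} {rk : V → Fin n}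
  {τ : V → K}

variable (r rk τ) in
/-- cycles -/
def ZB (D C : Finset (Fin n)) (N : Set V) (x : Finset V → K) : Prop :=
  Sp r rk N C x ∧ pd x = 0 ∧ Tau rk τ D x

variable (r rk τ) in
/-- families -/
def Fam (k : ℕ) (N : Set V) (x b : Finset V → K) : Prop :=
  Sp r rk N (DblF n k ∪ RgF n (2 * k) (2 * k + 2)) b ∧ pd b = x ∧ Tau rk τ (DblF n k) b

lemma Tau.mono {D D' : Finset (Fin n)} {x : Finset V → K} (h : Tau rk τ D x) (hD : D' ⊆ D) :
    Tau rk τ D' x := fun c hc => h c (hD hc)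

lemma slZB (hrk : ∀ x y, r x y → rk x < rk y) {D C : Finset (Fin n)} {N : Set V} {b : Finset V → K}
    (h : ZB r rk τ D C N b) (v : V) (hC : ∀ c ∈ C, c ≤ rk v) (hv : rk v ∉ D) :
    ZB r rk τ D (C.erase (rk v)) {w | r w v} (sl v b) := by
  refine ⟨slSp hrk h.1 v hC, ?_, slTau h.2.2 v hv⟩
  rw [pd_sl, h.2.1, map_zero]

lemma IsN_lt (hrk : ∀ x y, r x y → rk x < rk y) {m : ℕ} {N : Set V} (hN : IsN r rk m N) {v : V}
    (hv : v ∈ N) : (rk v : ℕ) < m := by
  rcases hN with ⟨_, rfl⟩ | ⟨y, rfl, rfl⟩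
  · exact (rk v).isLt
  · exact hrk _ _ hv

omit [Fintype V] [DecidableEq V] in
lemma IsN_le {m : ℕ} {N : Set V} (hN : IsN r rk m N) : m ≤ n := by
  rcases hN with ⟨_, rfl⟩ | ⟨y, _, rfl⟩
  · exact le_refl _
  · exact (rk y).isLt.le

lemma wt (hrk : ∀ x y, r x y → rk x < rk y) {N : Set V} {k : ℕ} (hk : 2 * k < n) {x : Finset V → K}
    (hx : ZB r rk τ (DblF n (k + 1)) (DblF n (k + 1)) N x) :
    ∃ u, ZB r rk τ (DblF n k) (DblF n (k + 1)) N u ∧
      ∀ R, (rk R : ℕ) = 2 * k → sl R u = τ R • sl R x := by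
  classical
  obtain ⟨h1, h2, h3⟩ := hx
  set u : Finset V → K := fun T => (∑ w ∈ T.filter (fun w => (rk w : ℕ) = 2 * k), τ w) * x T with hu
  have hc0 : (⟨2 * k, hk⟩ : Fin n) ∈ DblF n (k + 1) := by
    rw [mem_DblF]
    exact ⟨even_two_mul k, by show 2 * k < 2 * (k + 1); omega⟩
  have key : ∀ T w, w ∈ T → (rk w : ℕ) = 2 * k → u T = τ w * x T := by
    intro T w hw hwk
    by_cases hT : x T = 0
    · rw [hu]; simp only; rw [hT, mul_zero, mul_zero]
    · have : T.filter (fun w => (rk w : ℕ) = 2 * k) = {w} := by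
        ext v
        rw [Finset.mem_filter, Finset.mem_singleton]
        constructor
        · rintro ⟨hv, hvk⟩
          by_contra hne
          have hadj := (h1.ty hT).1 (by simpa using hv) (by simpa using hw) hne
          rw [cadj] at hadj
          rcases hadj.2 with h | h
          · have := hrk _ _ h; rw [Fin.lt_def] at this; omega
          · have := hrk _ _ h; rw [Fin.lt_def] at this; omega
        · rintro rfl; exact ⟨hw, hwk⟩
      rw [hu]; simp only; rw [this, Finset.sum_singleton]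
  have key0 : ∀ T, x T = 0 → u T = 0 := by
    intro T hT; rw [hu]; simp only; rw [hT, mul_zero]
  refine ⟨u, ⟨?_, ?_, ?_⟩, ?_⟩
  · intro T hT
    exact key0 T (h1 T hT)
  · funext T
    rw [pd_apply, Pi.zero_apply]
    by_cases hT : ∃ w ∈ T, (rk w : ℕ) = 2 * k
    · obtain ⟨w, hw, hwk⟩ := hT
      rw [Finset.sum_congr rfl fun v _ => key (insert v T) w (by simp [hw]) hwk, ← Finset.mul_sum,
        ← pd_apply, h2, Pi.zero_apply, mul_zero]
    · have hc : (⟨2 * k, hk⟩ : Fin n) ∉ T.image rk := by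
        intro hc
        rw [Finset.mem_image] at hc
        obtain ⟨w, hw, hwk⟩ := hc
        exact hT ⟨w, hw, by rw [hwk]⟩
      have h4 := h3 _ hc0 T hc
      rw [pt_apply] at h4
      rw [← h4]
      refine Finset.sum_congr rfl fun v hv => ?_
      by_cases hvk : (rk v : ℕ) = 2 * k
      · exact key _ v (by simp) hvk
      · have : x (insert v T) = 0 := by
          by_contra hne
          have h5 := (h1.ty hne).2.2
          have h6 := hc0
          rw [← h5, Finset.image_insert, Finset.mem_insert] at h6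
          rcases h6 with h6 | h6
          · exact hvk (by rw [← h6])
          · exact hc h6
        rw [this, key0 _ this, mul_zero]
  · intro c hc T hcT
    rw [pt_apply]
    have hcc : c ∈ DblF n (k + 1) := by
      rw [mem_DblF] at hc ⊢
      exact ⟨hc.1, by omega⟩
    by_cases hT : ∃ w ∈ T, (rk w : ℕ) = 2 * k
    · obtain ⟨w, hw, hwk⟩ := hT
      have h4 := h3 c hcc T hcT
      rw [pt_apply] at h4
      rw [Finset.sum_congr rfl fun v _ => by rw [key (insert v T) w (by simp [hw]) hwk]]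
      rw [Finset.sum_congr rfl fun v _ => mul_left_comm _ _ _, ← Finset.mul_sum, h4, mul_zero]
    · refine Finset.sum_eq_zero fun v _ => ?_
      have : x (insert v T) = 0 := by
        by_contra hne
        have h5 := (h1.ty hne).2.2
        have h6 := hc0
        have h7 := hcc
        rw [← h5, Finset.image_insert, Finset.mem_insert] at h6 h7
        rcases h6 with h6 | h6
        · rcases h7 with h7 | h7
          · rw [mem_DblF] at hc
            rw [h7, ← h6] at hc
            have := hc.2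
            simp at this
          · exact hcT h7
        · rw [Finset.mem_image] at h6
          obtain ⟨w, hw, hwk⟩ := h6
          exact hT ⟨w, hw, by rw [hwk]⟩
      rw [key0 _ this, mul_zero]
  · intro R hR
    funext T
    rw [Pi.smul_apply, sl_apply, sl_apply]
    split_ifs with h
    · rw [smul_zero]
    · rw [key _ R (by simp) hR, smul_eq_mul]

lemma REC (hrk : ∀ x y, r x y → rk x < rk y) {N : Set V} {C : Finset (Fin n)} {x : Finset V → K}
    {m : ℕ} (hx : Sp r rk N C x) (hC : ∃ c ∈ C, (c : ℕ) = m) :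
    ∑ R ∈ Finset.univ.filter (fun R => (rk R : ℕ) = m), ∑ T, τ R * ((∏ v ∈ T, τ v) * (sl R x T) ^ 2) =
      ∑ T, (∏ v ∈ T, τ v) * x T ^ 2 := by
  classical
  have h1 : ∀ R : V, ∑ T, τ R * ((∏ v ∈ T, τ v) * (sl R x T) ^ 2) =
      ∑ T, if R ∈ T then (∏ v ∈ T, τ v) * x T ^ 2 else 0 := by
    intro R
    rw [← Finset.sum_filter]
    have h2 : ∑ T, τ R * ((∏ v ∈ T, τ v) * (sl R x T) ^ 2) =
        ∑ T ∈ Finset.univ.filter (fun T : Finset V => R ∉ T),
          τ R * ((∏ v ∈ T, τ v) * (sl R x T) ^ 2) := by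
      rw [Finset.sum_filter]
      refine Finset.sum_congr rfl fun T _ => ?_
      by_cases h : R ∈ T
      · rw [if_neg (not_not.2 h), sl_apply, if_pos h]; ring
      · rw [if_pos h]
    rw [h2]
    refine Finset.sum_nbij' (fun T => insert R T) (fun T => T.erase R) ?_ ?_ ?_ ?_ ?_
    · intro T _; simp
    · intro T _; simp
    · intro T hT
      rw [Finset.mem_filter] at hT
      exact Finset.erase_insert hT.2
    · intro T hT
      rw [Finset.mem_filter] at hT
      exact Finset.insert_erase hT.2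
    · intro T hT
      rw [Finset.mem_filter] at hT
      rw [sl_apply, if_neg hT.2, Finset.prod_insert hT.2]; ring
  rw [Finset.sum_congr rfl fun R _ => h1 R, Finset.sum_comm]
  refine Finset.sum_congr rfl fun T _ => ?_
  by_cases hT : x T = 0
  · rw [hT]; simp
  · obtain ⟨c, hc, hcm⟩ := hC
    have h3 := hx.ty hT
    rw [← h3.2.2, Finset.mem_image] at hc
    obtain ⟨w, hw, hwc⟩ := hc
    rw [Finset.sum_eq_single w, if_pos hw]
    · intro v hv hvw
      rw [if_neg]
      intro hvT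
      have hadj := h3.1 (by simpa using hvT) (by simpa using hw) hvw
      rw [Finset.mem_filter] at hv
      rw [cadj] at hadj
      rcases hadj.2 with h | h
      · have := hrk _ _ h; rw [Fin.lt_def, hwc, hcm, hv.2] at this; exact lt_irrefl _ this
      · have := hrk _ _ h; rw [Fin.lt_def, hwc, hcm, hv.2] at this; exact lt_irrefl _ this
    · intro h
      exfalso
      apply h
      rw [Finset.mem_filter]
      exact ⟨Finset.mem_univ _, by rw [hwc, hcm]⟩

/-- bilinear forms -/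
abbrev Bil (V K : Type) [Field K] : Type := (Finset V → K) →ₗ[K] (Finset V → K) →ₗ[K] K

variable (rk τ) in
/-- the sum over flags -/
def EE (k : ℕ) (L : V → Bil V K) (b b' : Finset V → K) : K :=
  ∑ M ∈ Finset.univ.filter (fun M => (rk M : ℕ) = 2 * k + 1),
    ∑ R ∈ Finset.univ.filter (fun R => (rk R : ℕ) = 2 * k), τ R * L R (sl R (sl M b)) (sl R (sl M b'))

variable (r rk τ) in
/-- the inductive properties -/
structure Good (k : ℕ) (L : V → Bil V K) : Prop where
  symm : ∀ R x x', L R x x' = L R x' x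
  Q : ∀ R, (rk R : ℕ) = 2 * k → ∀ x, ZB r rk τ (DblF n k) (DblF n k) {v | r v R} x →
    L R x x = ∑ T, (∏ v ∈ T, τ v) * x T ^ 2
  I : ∀ N, IsN r rk (2 * k + 1) N → ∀ b b', ZB r rk τ (DblF n k) (DblF n (k + 1)) N b →
    ZB r rk τ (DblF n k) (DblF n (k + 1)) N b' →
    ∑ R ∈ Finset.univ.filter (fun R => (rk R : ℕ) = 2 * k), L R (sl R b) (sl R b') = 0

lemma EE_symm {k : ℕ} {L : V → Bil V K} (h : ∀ R x x', L R x x' = L R x' x) (b b' : Finset V → K) :
    EE rk τ k L b b' = EE rk τ k L b' b := by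
  unfold EE
  refine Finset.sum_congr rfl fun M _ => Finset.sum_congr rfl fun R _ => ?_
  rw [h]

lemma EE_sub {k : ℕ} {L : V → Bil V K} (b₁ b₂ b' : Finset V → K) :
    EE rk τ k L (b₁ - b₂) b' = EE rk τ k L b₁ b' - EE rk τ k L b₂ b' := by
  unfold EE
  rw [← Finset.sum_sub_distrib]
  refine Finset.sum_congr rfl fun M _ => ?_
  rw [← Finset.sum_sub_distrib]
  refine Finset.sum_congr rfl fun R _ => ?_
  rw [map_sub, map_sub, map_sub, LinearMap.sub_apply, mul_sub]

lemma Fam.sub {k : ℕ} {N : Set V} {x x' b b' : Finset V → K} (h : Fam r rk τ k N x b)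
    (h' : Fam r rk τ k N x' b') : Fam r rk τ k N (x - x') (b - b') := by
  refine ⟨?_, ?_, ?_⟩
  · intro T hT
    rw [Pi.sub_apply, h.1 T hT, h'.1 T hT, sub_zero]
  · rw [pd_sub, h.2.1, h'.2.1]
  · intro c hc T hT
    rw [pt_sub, Pi.sub_apply, h.2.2 c hc T hT, h'.2.2 c hc T hT, sub_zero]

/-- slices of families -/
lemma slFam (hrk : ∀ x y, r x y → rk x < rk y) {k : ℕ} {N N' : Set V} {x b : Finset V → K}
    (h : Fam r rk τ k N x b) (hx : Sp r rk N' (DblF n (k + 1)) x) {M : V}
    (hM : (rk M : ℕ) = 2 * k + 1) : ZB r rk τ (DblF n k) (DblF n (k + 1)) {v | r v M} (sl M b) := by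
  have e : (DblF n k ∪ RgF n (2 * k) (2 * k + 2)).erase (rk M) = DblF n (k + 1) := by
    ext c
    rw [Finset.mem_erase, Finset.mem_union, mem_DblF, mem_RgF, mem_DblF, ne_eq, Fin.ext_iff, hM,
      Nat.even_iff]
    omega
  refine ⟨?_, ?_, slTau h.2.2 M ?_⟩
  · rw [← e]
    apply slSp hrk h.1
    intro c hc
    rw [Finset.mem_union, mem_DblF, mem_RgF] at hc
    rw [Fin.le_def, hM]
    omega
  · rw [pd_sl, h.2.1]
    apply sl_zero hx
    rw [mem_DblF, hM, Nat.even_iff]
    omega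
  · rw [mem_DblF, hM, Nat.even_iff]
    omega

/-- the slices of rank `2k` -/
lemma slZ (hrk : ∀ x y, r x y → rk x < rk y) {k : ℕ} {N : Set V} {b : Finset V → K}
    (h : ZB r rk τ (DblF n k) (DblF n (k + 1)) N b) {R : V} (hR : (rk R : ℕ) = 2 * k) :
    ZB r rk τ (DblF n k) (DblF n k) {v | r v R} (sl R b) := by
  have e : (DblF n (k + 1)).erase (rk R) = DblF n k := by
    ext c
    rw [Finset.mem_erase, mem_DblF, mem_DblF, ne_eq, Fin.ext_iff, hR, Nat.even_iff]
    omega
  rw [← e]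
  have e' : ZB r rk τ (DblF n k) ((DblF n (k + 1)).erase (rk R)) {w | r w R} (sl R b) := by
    apply slZB hrk h
    · intro c hc
      rw [mem_DblF, Nat.even_iff] at hc
      rw [Fin.le_def, hR]
      omega
    · rw [mem_DblF, hR]
      omega
  rw [e] at e' ⊢
  exact e'

lemma famSum (hrk : ∀ x y, r x y → rk x < rk y) {k : ℕ} (hk : 2 * k + 1 < n) {N N' : Set V}
    {x b : Finset V → K} (h : Fam r rk τ k N x b) (hx : Sp r rk N' (DblF n (k + 1)) x) :
    ∑ M ∈ Finset.univ.filter (fun M => (rk M : ℕ) = 2 * k + 1), sl M b = x := by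
  apply SUMM hrk h.1 _ _ h.2.1
  · rintro T ⟨w, hw, hwk⟩
    by_contra hne
    have h1 := (hx.ty hne).2.2
    have h2 : rk w ∈ DblF n (k + 1) := by
      rw [← h1]; exact Finset.mem_image_of_mem _ hw
    rw [mem_DblF, hwk, Nat.even_iff] at h2
    omega
  · refine ⟨⟨2 * k + 1, hk⟩, ?_, rfl⟩
    rw [Finset.mem_union, mem_RgF]
    right
    constructor
    · show 2 * k ≤ 2 * k + 1; omega
    · show 2 * k + 1 < 2 * k + 2; omega

/-- existence of families -/
lemma exFam (hrk : ∀ x y, r x y → rk x < rk y) {k : ℕ} (hk : 2 * k + 1 < n) {N : Set V}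
    (hP : ∀ s : Fin n, (s : ℕ) = 2 * k + 1 →
      PRIM r rk τ N (DblF n k) (RgF n (2 * k) (2 * k + 2)) s) {x : Finset V → K}
    (hx : ZB r rk τ (DblF n k) (DblF n (k + 1)) N x) : ∃ b, Fam r rk τ k N x b := by
  have e : (DblF n k ∪ RgF n (2 * k) (2 * k + 2)).erase (⟨2 * k + 1, hk⟩ : Fin n) =
      DblF n (k + 1) := by
    ext c
    rw [Finset.mem_erase, Finset.mem_union, mem_DblF, mem_RgF, mem_DblF, ne_eq, Fin.ext_iff,
      Nat.even_iff]
    show ¬ (c : ℕ) = 2 * k + 1 ∧ _ ↔ _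
    omega
  have hs : (⟨2 * k + 1, hk⟩ : Fin n) ∉ DblF n k := by
    rw [mem_DblF]
    rintro ⟨-, h⟩
    have : 2 * k + 1 < 2 * k := h
    omega
  obtain ⟨b, h1, h2, h3⟩ := PRIM_out hrk hs (hP _ rfl) (by rw [e]; exact hx.1) hx.2.1 hx.2.2
  exact ⟨b, h1, h2, h3⟩

end Pool.Agent.W578.SM
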